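import Mathlib

set_option autoImplicit false

/-!
# The elements `X_k` never vanish in the quotient `Z_n` of the braid group algebra

We show that for every nontrivial commutative ring `R`, every unit `q` of `R` and all
`2 ≤ k ≤ n`, the element `X_k` is nonzero in `Z_n` (over `R`).  In particular, over
`R = ℤ[q, q⁻¹]` the set of `n ≥ 3` with `X_3 = 0` in `Z_n` is empty.

The proof uses the (unreduced) Burau representation with a parameter `t` that is independent
of `q`.
-/

namespace Pool.Agent.Results.MP_2b4a1d_al.NeverVanishes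

open LaurentPolynomial

/-- The Artin relators for the braid group on `n` strands; the generator with index
`i : Fin (n - 1)` is `σ_{i+1}`. -/
inductive BraidRel (n : ℕ) : FreeGroup (Fin (n - 1)) → Prop
  | comm (i j : Fin (n - 1)) (h : (i : ℕ) + 2 ≤ (j : ℕ)) :
      BraidRel n (FreeGroup.of i * FreeGroup.of j * (FreeGroup.of j * FreeGroup.of i)⁻¹)
  | braid (i j : Fin (n - 1)) (h : (i : ℕ) + 1 = (j : ℕ)) :
      BraidRel n (FreeGroup.of i * FreeGroup.of j * FreeGroup.of i *
        (FreeGroup.of j * FreeGroup.of i * FreeGroup.of j)⁻¹)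

/-- The braid group `B_n` on `n` strands. -/
abbrev BraidGroup (n : ℕ) : Type := PresentedGroup {r | BraidRel n r}

/-- The Artin generator `σ_i` for `1 ≤ i ≤ n - 1` (and, as a junk value, `1` otherwise). -/
def σ (n i : ℕ) : BraidGroup n :=
  if h : 1 ≤ i ∧ i ≤ n - 1 then PresentedGroup.of ⟨i - 1, by omega⟩ else 1

/-- `up n a b = σ_a σ_{a+1} ⋯ σ_b`, i.e. `σ_{a … b}` with increasing indices. -/
def up (n a b : ℕ) : BraidGroup n := ((List.Ico a (b + 1)).map (σ n)).prod

/-- `down n b a = σ_b σ_{b-1} ⋯ σ_a`, i.e. `σ_{b … a}` with decreasing indices. -/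
def down (n b a : ℕ) : BraidGroup n := ((List.Ico a (b + 1)).reverse.map (σ n)).prod

section Defs

variable (R : Type) [CommRing R] (q : Rˣ) (n : ℕ)

/-- The group algebra `R B_n`. -/
abbrev GrpAlg : Type := MonoidAlgebra R (BraidGroup n)

/-- The inclusion of the braid group in its group algebra. -/
noncomputable abbrev ofB (g : BraidGroup n) : GrpAlg R n := MonoidAlgebra.of R (BraidGroup n) g

/-- `E_j = q^j (σ_{j … 1})⁻¹ - σ_{1 … j}`. -/
noncomputable def E (j : ℕ) : GrpAlg R n :=
  ((q : R) ^ j) • ofB R n (down n j 1)⁻¹ - ofB R n (up n 1 j)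

/-- `X_2 = q σ_1⁻¹ + 1 - q - σ_1`, and `X_k = E_{k-1} X_{k-1}` for `k ≥ 3`
(the values at `k = 0, 1` are junk). -/
noncomputable def X : ℕ → GrpAlg R n
  | 0 => 0
  | 1 => 0
  | 2 => (q : R) • ofB R n (σ n 1)⁻¹ + (1 - (q : R)) • 1 - ofB R n (σ n 1)
  | (k + 3) => E R q n (k + 2) * X (k + 2)

/-- `F_k = q^{k-1} (σ_{k … 1})⁻¹ - σ_{1 … k}`. -/
noncomputable def F (k : ℕ) : GrpAlg R n :=
  ((q : R) ^ (k - 1)) • ofB R n (down n k 1)⁻¹ - ofB R n (up n 1 k)

/-- `G_2 = q σ_2⁻¹ + 1 - q - σ_2`, and `G_k = q^{k-1} (σ_{k … 2})⁻¹ - σ_{2 … k}` for `k ≥ 3`. -/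
noncomputable def G (k : ℕ) : GrpAlg R n :=
  if k = 2 then (q : R) • ofB R n (σ n 2)⁻¹ + (1 - (q : R)) • 1 - ofB R n (σ n 2)
  else ((q : R) ^ (k - 1)) • ofB R n (down n k 2)⁻¹ - ofB R n (up n 2 k)

/-- The defining relations `G_k X_k = F_k X_k` for `2 ≤ k ≤ n - 1`. -/
inductive ZRel : GrpAlg R n → GrpAlg R n → Prop
  | rel (k : ℕ) (h2 : 2 ≤ k) (hk : k ≤ n - 1) :
      ZRel (G R q n k * X R q n k) (F R q n k * X R q n k)

/-- The algebra `Z_n` over `R`: the quotient of `R B_n` by the two-sided ideal generated by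
`(G_k - F_k) X_k`, `2 ≤ k ≤ n - 1`. -/
abbrev Z : Type := RingQuot (ZRel R q n)

/-- The quotient map `R B_n → Z_n`. -/
noncomputable abbrev toZ : GrpAlg R n →+* Z R q n := RingQuot.mkRingHom (ZRel R q n)

end Defs

/-! ### The Burau representation -/

section Burau

variable {A : Type} [CommRing A] (t : Aˣ)

/-- The action of `σ_i` in the Burau representation. -/
def burL (i : ℕ) : Module.End A (ℕ → A) where
  toFun v := fun j => if j = i then (1 - (t : A)) * v i + (t : A) * v (i + 1)
    else if j = i + 1 then v i else v j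
  map_add' v w := by
    funext j
    simp only [Pi.add_apply]
    split_ifs <;> ring
  map_smul' c v := by
    funext j
    simp only [Pi.smul_apply, smul_eq_mul, RingHom.id_apply]
    split_ifs <;> ring

/-- The action of `σ_i⁻¹` in the Burau representation. -/
def burI (i : ℕ) : Module.End A (ℕ → A) where
  toFun v := fun j => if j = i then v (i + 1)
    else if j = i + 1 then ((t⁻¹ : Aˣ) : A) * v i + (1 - ((t⁻¹ : Aˣ) : A)) * v (i + 1) else v j
  map_add' v w := by
    funext j
    simp only [Pi.add_apply]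
    split_ifs <;> ring
  map_smul' c v := by
    funext j
    simp only [Pi.smul_apply, smul_eq_mul, RingHom.id_apply]
    split_ifs <;> ring

lemma burL_apply (i : ℕ) (v : ℕ → A) (j : ℕ) :
    burL t i v j = if j = i then (1 - (t : A)) * v i + (t : A) * v (i + 1)
      else if j = i + 1 then v i else v j := rfl

lemma burI_apply (i : ℕ) (v : ℕ → A) (j : ℕ) :
    burI t i v j = if j = i then v (i + 1)
      else if j = i + 1 then ((t⁻¹ : Aˣ) : A) * v i + (1 - ((t⁻¹ : Aˣ) : A)) * v (i + 1)
      else v j := rfl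

/-- The Burau matrix of `σ_i` as a unit. -/
def bur (i : ℕ) : (Module.End A (ℕ → A))ˣ where
  val := burL t i
  inv := burI t i
  val_inv := by
    have ht : (t : A) * ((t⁻¹ : Aˣ) : A) = 1 := t.mul_inv
    refine LinearMap.ext fun v => funext fun j => ?_
    simp only [Module.End.mul_apply, burL_apply, burI_apply, Module.End.one_apply]
    by_cases h1 : j = i
    · subst h1
      simp only [if_true, Nat.succ_ne_self, if_false]
      linear_combination (v j - v (j + 1)) * ht
    · by_cases h2 : j = i + 1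
      · subst h2
        simp
      · simp [h1, h2]
  inv_val := by
    have ht : (t : A) * ((t⁻¹ : Aˣ) : A) = 1 := t.mul_inv
    refine LinearMap.ext fun v => funext fun j => ?_
    simp only [Module.End.mul_apply, burL_apply, burI_apply, Module.End.one_apply]
    by_cases h1 : j = i
    · subst h1
      simp
    · by_cases h2 : j = i + 1
      · subst h2
        simp only [if_true, Nat.succ_ne_self, if_false]
        linear_combination (v (i + 1) - v i) * ht
      · simp [h1, h2]

lemma bur_val (i : ℕ) (v : ℕ → A) : (bur t i : Module.End A (ℕ → A)) v = burL t i v := rfl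

lemma bur_inv_val (i : ℕ) (v : ℕ → A) :
    (((bur t i)⁻¹ : (Module.End A (ℕ → A))ˣ) : Module.End A (ℕ → A)) v = burI t i v := rfl

lemma bur_comm (i j : ℕ) (h : i + 2 ≤ j) : bur t i * bur t j = bur t j * bur t i := by
  apply Units.ext
  refine LinearMap.ext fun v => funext fun l => ?_
  simp only [Units.val_mul, Module.End.mul_apply, bur_val, burL_apply]
  have e1 : i ≠ j := by omega
  have e2 : i ≠ j + 1 := by omega
  have e3 : i + 1 ≠ j := by omega
  have e4 : i + 1 ≠ j + 1 := by omega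
  by_cases h1 : l = i
  · subst h1; simp [e1, e2, e3]
  · by_cases h2 : l = i + 1
    · subst h2; simp [e1, e2, e3]
    · by_cases h3 : l = j
      · subst h3; simp [e1.symm, e3.symm, e2.symm]
      · by_cases h4 : l = j + 1
        · subst h4; simp [e1.symm, e3.symm, e2.symm]
        · simp [h1, h2, h3, h4]

lemma bur_braid (i : ℕ) :
    bur t i * bur t (i + 1) * bur t i = bur t (i + 1) * bur t i * bur t (i + 1) := by
  apply Units.ext
  refine LinearMap.ext fun v => funext fun l => ?_
  simp only [Units.val_mul, Module.End.mul_apply, bur_val, burL_apply]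
  have f1 : i ≠ i + 1 := by omega
  have f2 : i ≠ i + 1 + 1 := by omega
  have f3 : i + 1 ≠ i + 1 + 1 := by omega
  by_cases h1 : l = i
  · subst h1
    simp only [f1, f2, f3, f1.symm, f2.symm, f3.symm, if_true, if_false]
    ring
  · by_cases h2 : l = i + 1
    · subst h2
      simp only [f1, f2, f3, f1.symm, f2.symm, f3.symm, if_true, if_false]
    · by_cases h3 : l = i + 1 + 1
      · subst h3
        simp only [f1, f2, f3, f1.symm, f2.symm, f3.symm, if_true, if_false]
      · simp only [h1, h2, h3, if_false]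

/-- The Burau representation of the braid group. -/
noncomputable def ρ (n : ℕ) : BraidGroup n →* (Module.End A (ℕ → A))ˣ :=
  PresentedGroup.toGroup (f := fun i : Fin (n - 1) => bur t ((i : ℕ) + 1)) (by
    intro r hr
    rcases hr with ⟨i, j, h⟩ | ⟨i, j, h⟩
    · simp only [map_mul, map_inv, FreeGroup.lift_apply_of]
      rw [bur_comm t ((i : ℕ) + 1) ((j : ℕ) + 1) (by omega)]
      group
    · simp only [map_mul, map_inv, FreeGroup.lift_apply_of]
      have hj : (j : ℕ) + 1 = (i : ℕ) + 1 + 1 := by omega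
      rw [hj, bur_braid t ((i : ℕ) + 1)]
      group)

lemma ρ_σ (n i : ℕ) (h1 : 1 ≤ i) (h2 : i ≤ n - 1) : ρ t n (σ n i) = bur t i := by
  unfold σ
  rw [dif_pos ⟨h1, h2⟩]
  unfold ρ
  rw [PresentedGroup.toGroup.of]
  congr 1
  simp only
  omega

/-- The standard basis vector `e_j`. -/
def e (A : Type) [CommRing A] (j : ℕ) : ℕ → A := Pi.single j 1

/-- The vector `w_i = e_{i+1} - t e_i`. -/
def w (i : ℕ) : ℕ → A := e A (i + 1) - (t : A) • e A i

lemma e_self (j : ℕ) : e A j j = 1 := by simp [e]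

lemma e_ne (j l : ℕ) (h : l ≠ j) : e A j l = 0 := by simp [e, h]

lemma burL_e_self (i : ℕ) : burL t i (e A i) = (1 - (t : A)) • e A i + e A (i + 1) := by
  funext l
  have f1 : i ≠ i + 1 := by omega
  rw [burL_apply]
  simp only [Pi.add_apply, Pi.smul_apply, smul_eq_mul]
  by_cases h1 : l = i
  · subst h1; simp [e_self, e_ne]
  · by_cases h2 : l = i + 1
    · subst h2; simp [e_self, e_ne]
    · simp [h1, h2, e_ne]

lemma burL_e_succ (i : ℕ) : burL t i (e A (i + 1)) = (t : A) • e A i := by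
  funext l
  have f1 : i ≠ i + 1 := by omega
  rw [burL_apply]
  simp only [Pi.smul_apply, smul_eq_mul]
  by_cases h1 : l = i
  · subst h1; simp [e_self, e_ne]
  · by_cases h2 : l = i + 1
    · subst h2; simp [e_ne]
    · simp [h1, h2, e_ne]

lemma burL_e_of_ne (i j : ℕ) (h1 : j ≠ i) (h2 : j ≠ i + 1) : burL t i (e A j) = e A j := by
  funext l
  rw [burL_apply]
  by_cases h3 : l = i
  · subst h3; simp [e_ne _ _ h1.symm, e_ne _ _ h2.symm]
  · by_cases h4 : l = i + 1
    · subst h4; simp [e_ne _ _ h1.symm, e_ne _ _ h2.symm]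
    · simp [h3, h4]

lemma burI_e_self (i : ℕ) : burI t i (e A i) = ((t⁻¹ : Aˣ) : A) • e A (i + 1) := by
  funext l
  have f1 : i ≠ i + 1 := by omega
  rw [burI_apply]
  simp only [Pi.smul_apply, smul_eq_mul]
  by_cases h1 : l = i
  · subst h1; simp [e_ne]
  · by_cases h2 : l = i + 1
    · subst h2; simp [e_self, e_ne]
    · simp [h1, h2, e_ne]

lemma burI_e_succ (i : ℕ) :
    burI t i (e A (i + 1)) = e A i + (1 - ((t⁻¹ : Aˣ) : A)) • e A (i + 1) := by
  funext l
  have f1 : i ≠ i + 1 := by omega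
  rw [burI_apply]
  simp only [Pi.add_apply, Pi.smul_apply, smul_eq_mul]
  by_cases h1 : l = i
  · subst h1; simp [e_self, e_ne]
  · by_cases h2 : l = i + 1
    · subst h2; simp [e_self, e_ne]
    · simp [h1, h2, e_ne]

lemma burI_e_of_ne (i j : ℕ) (h1 : j ≠ i) (h2 : j ≠ i + 1) : burI t i (e A j) = e A j := by
  funext l
  rw [burI_apply]
  by_cases h3 : l = i
  · subst h3; simp [e_ne _ _ h1.symm, e_ne _ _ h2.symm]
  · by_cases h4 : l = i + 1
    · subst h4; simp [e_ne _ _ h1.symm, e_ne _ _ h2.symm]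
    · simp [h3, h4]

/-- `σ_i` fixes `w_k` for `i + 2 ≤ k`. -/
lemma burL_w_far (i k : ℕ) (h : i + 2 ≤ k) : burL t i (w t k) = w t k := by
  simp only [w, map_sub, map_smul]
  rw [burL_e_of_ne t i (k + 1) (by omega) (by omega), burL_e_of_ne t i k (by omega) (by omega)]

lemma burI_w_far (i k : ℕ) (h : i + 2 ≤ k) : burI t i (w t k) = w t k := by
  simp only [w, map_sub, map_smul]
  rw [burI_e_of_ne t i (k + 1) (by omega) (by omega), burI_e_of_ne t i k (by omega) (by omega)]

/-- `σ_{k} w_k = ...` one step: `σ_{k+1} w_k = (1-t) e_{k+1} + e_{k+2} - t e_k`. -/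
lemma burL_succ_w (k : ℕ) : burL t (k + 1) (w t k) =
    (1 - (t : A)) • e A (k + 1) + e A (k + 2) - (t : A) • e A k := by
  simp only [w, map_sub, map_smul]
  rw [burL_e_self, burL_e_of_ne t (k + 1) k (by omega) (by omega)]

lemma burI_succ_w (k : ℕ) : burI t (k + 1) (w t k) =
    ((t⁻¹ : Aˣ) : A) • e A (k + 2) - (t : A) • e A k := by
  simp only [w, map_sub, map_smul]
  rw [burI_e_self, burI_e_of_ne t (k + 1) k (by omega) (by omega)]

/-- `σ_k σ_{k+1} w_k = w_{k+1}`. -/
lemma burL_burL_w (k : ℕ) : burL t k (burL t (k + 1) (w t k)) = w t (k + 1) := by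
  rw [burL_succ_w]
  simp only [map_sub, map_add, map_smul]
  rw [burL_e_succ, burL_e_self, burL_e_of_ne t k (k + 2) (by omega) (by omega)]
  funext l
  simp only [w, Pi.add_apply, Pi.sub_apply, Pi.smul_apply, smul_eq_mul]
  ring

/-- `σ_k⁻¹ σ_{k+1}⁻¹ w_k = t⁻¹ w_{k+1}`. -/
lemma burI_burI_w (k : ℕ) :
    burI t k (burI t (k + 1) (w t k)) = ((t⁻¹ : Aˣ) : A) • w t (k + 1) := by
  have ht : (t : A) * ((t⁻¹ : Aˣ) : A) = 1 := t.mul_inv
  rw [burI_succ_w]
  simp only [map_sub, map_smul]
  rw [burI_e_self, burI_e_of_ne t k (k + 2) (by omega) (by omega)]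
  funext l
  simp only [w, Pi.sub_apply, Pi.smul_apply, smul_eq_mul]
  ring

/-- The action of `σ_a ⋯ σ_{k+1}` on `w_k`. -/
lemma ρ_up_w (n a k : ℕ) (ha : 1 ≤ a) (hak : a ≤ k) (hk : k + 1 ≤ n - 1) :
    ((ρ t n (up n a (k + 1)) : (Module.End A (ℕ → A))ˣ) : Module.End A (ℕ → A)) (w t k)
      = w t (k + 1) := by
  have key : ∀ L : List ℕ, (∀ i ∈ L, 1 ≤ i ∧ i + 2 ≤ k + 1 ∧ i ≤ n - 1) →
      ((ρ t n (L.map (σ n)).prod : (Module.End A (ℕ → A))ˣ) : Module.End A (ℕ → A)) (w t (k + 1))
        = w t (k + 1) := by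
    intro L
    induction L with
    | nil => intro _; simp
    | cons i L ih =>
      intro h
      have hi := h i (by simp)
      rw [List.map_cons, List.prod_cons, map_mul, Units.val_mul, Module.End.mul_apply,
        ih (fun j hj => h j (by simp [hj])), ρ_σ t n i hi.1 hi.2.2, bur_val,
        burL_w_far t i (k + 1) hi.2.1]
  unfold up
  have h1 : List.Ico a (k + 1 + 1) = List.Ico a k ++ [k] ++ [k + 1] := by
    rw [List.Ico.succ_top (by omega : a ≤ k + 1), List.Ico.succ_top hak]
  rw [h1, List.map_append, List.map_append, List.prod_append, List.prod_append, map_mul, map_mul,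
    Units.val_mul, Units.val_mul, Module.End.mul_apply, Module.End.mul_apply]
  simp only [List.map_cons, List.map_nil, List.prod_cons, List.prod_nil, mul_one]
  rw [ρ_σ t n k (by omega) (by omega), ρ_σ t n (k + 1) (by omega) hk, bur_val, bur_val,
    burL_burL_w]
  apply key
  intro i hi
  rw [List.Ico.mem] at hi
  omega

/-- The action of `(σ_{k+1} ⋯ σ_a)⁻¹` on `w_k`. -/
lemma ρ_down_w (n a k : ℕ) (ha : 1 ≤ a) (hak : a ≤ k) (hk : k + 1 ≤ n - 1) :
    ((ρ t n (down n (k + 1) a)⁻¹ : (Module.End A (ℕ → A))ˣ) : Module.End A (ℕ → A)) (w t k)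
      = ((t⁻¹ : Aˣ) : A) • w t (k + 1) := by
  have key : ∀ L : List ℕ, (∀ i ∈ L, 1 ≤ i ∧ i + 2 ≤ k + 1 ∧ i ≤ n - 1) →
      ((ρ t n (L.map (fun i => (σ n i)⁻¹)).prod : (Module.End A (ℕ → A))ˣ) :
        Module.End A (ℕ → A)) (w t (k + 1)) = w t (k + 1) := by
    intro L
    induction L with
    | nil => intro _; simp
    | cons i L ih =>
      intro h
      have hi := h i (by simp)
      rw [List.map_cons, List.prod_cons, map_mul, Units.val_mul, Module.End.mul_apply,
        ih (fun j hj => h j (by simp [hj])), map_inv, ρ_σ t n i hi.1 hi.2.2, bur_inv_val,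
        burI_w_far t i (k + 1) hi.2.1]
  have h0 : (down n (k + 1) a)⁻¹ = ((List.Ico a (k + 1 + 1)).map (fun i => (σ n i)⁻¹)).prod := by
    unfold down
    rw [List.prod_inv_reverse, ← List.map_reverse, ← List.map_reverse, List.map_map,
      List.reverse_reverse]
    rfl
  have h1 : List.Ico a (k + 1 + 1) = List.Ico a k ++ [k] ++ [k + 1] := by
    rw [List.Ico.succ_top (by omega : a ≤ k + 1), List.Ico.succ_top hak]
  rw [h0, h1, List.map_append, List.map_append, List.prod_append, List.prod_append, map_mul,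
    map_mul, Units.val_mul, Units.val_mul, Module.End.mul_apply, Module.End.mul_apply]
  simp only [List.map_cons, List.map_nil, List.prod_cons, List.prod_nil, mul_one, map_inv]
  rw [ρ_σ t n k (by omega) (by omega), ρ_σ t n (k + 1) (by omega) hk, bur_inv_val, bur_inv_val,
    burI_burI_w, map_smul]
  congr 1
  apply key
  intro i hi
  rw [List.Ico.mem] at hi
  omega

end Burau

section Rep

variable (R : Type) [CommRing R] (q : Rˣ) (n : ℕ) {A : Type} [CommRing A] [Algebra R A] (t : Aˣ)

/-- The Burau representation of the group algebra. -/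
noncomputable def π : GrpAlg R n →ₐ[R] Module.End A (ℕ → A) :=
  MonoidAlgebra.lift R (Module.End A (ℕ → A)) (BraidGroup n)
    ((Units.coeHom (Module.End A (ℕ → A))).comp (ρ t n))

lemma π_of (g : BraidGroup n) :
    π R n t (ofB R n g) = ((ρ t n g : (Module.End A (ℕ → A))ˣ) : Module.End A (ℕ → A)) := by
  simp [π, ofB]

/-- the scalar `q^j t⁻¹ - 1` -/
noncomputable def c (j : ℕ) : A := algebraMap R A ((q : R) ^ j) * ((t⁻¹ : Aˣ) : A) - 1

lemma π_E (k : ℕ) (h1 : 1 ≤ k) (hk : k + 1 ≤ n - 1) :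
    π R n t (E R q n (k + 1)) (w t k) = c R q t (k + 1) • w t (k + 1) := by
  unfold E
  rw [map_sub, map_smul, π_of, π_of, LinearMap.sub_apply, LinearMap.smul_apply,
    ρ_up_w t n 1 k le_rfl h1 hk, ρ_down_w t n 1 k le_rfl h1 hk]
  rw [← algebraMap_smul A ((q : R) ^ (k + 1)) (_ : ℕ → A), smul_smul, c, sub_smul, one_smul]

lemma π_F (k : ℕ) (h1 : 1 ≤ k) (hk : k + 1 ≤ n - 1) :
    π R n t (F R q n (k + 1)) (w t k) = c R q t k • w t (k + 1) := by
  unfold F
  rw [map_sub, map_smul, π_of, π_of, LinearMap.sub_apply, LinearMap.smul_apply,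
    ρ_up_w t n 1 k le_rfl h1 hk, ρ_down_w t n 1 k le_rfl h1 hk, Nat.add_sub_cancel]
  rw [← algebraMap_smul A ((q : R) ^ k) (_ : ℕ → A), smul_smul, c, sub_smul, one_smul]

lemma π_G (k : ℕ) (h1 : 2 ≤ k) (hk : k + 1 ≤ n - 1) :
    π R n t (G R q n (k + 1)) (w t k) = c R q t k • w t (k + 1) := by
  unfold G
  rw [if_neg (by omega)]
  rw [map_sub, map_smul, π_of, π_of, LinearMap.sub_apply, LinearMap.smul_apply,
    ρ_up_w t n 2 k (by omega) h1 hk, ρ_down_w t n 2 k (by omega) h1 hk, Nat.add_sub_cancel]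
  rw [← algebraMap_smul A ((q : R) ^ k) (_ : ℕ → A), smul_smul, c, sub_smul, one_smul]

lemma π_G_two (hk : 2 ≤ n - 1) :
    π R n t (G R q n 2) (w t 1) = c R q t 1 • w t 2 := by
  have ht : (t : A) * ((t⁻¹ : Aˣ) : A) = 1 := t.mul_inv
  unfold G
  rw [if_pos rfl]
  rw [map_sub, map_add, map_smul, map_smul, π_of, π_of, map_one, LinearMap.sub_apply,
    LinearMap.add_apply, LinearMap.smul_apply, LinearMap.smul_apply, map_inv,
    ρ_σ t n 2 (by omega) hk, bur_val, bur_inv_val, burL_succ_w, burI_succ_w,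
    Module.End.one_apply]
  rw [← algebraMap_smul A (q : R) (_ : ℕ → A), ← algebraMap_smul A (1 - (q : R)) (_ : ℕ → A)]
  funext l
  simp only [w, c, Pi.add_apply, Pi.sub_apply, Pi.smul_apply, smul_eq_mul, map_sub, map_one,
    pow_one]
  linear_combination (algebraMap R A (q : R) * e A 2 l) * ht

/-- `X_{k+2}` maps every vector `v` to a multiple of `w_{k+1}`. -/
lemma π_X (k : ℕ) (hk : k + 2 ≤ n) (v : ℕ → A) :
    π R n t (X R q n (k + 2)) v =
      ((∏ j ∈ Finset.range (k + 1), c R q t (j + 1)) * (v 1 - v 2)) • w t (k + 1) := by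
  induction k with
  | zero =>
    have ht : (t : A) * ((t⁻¹ : Aˣ) : A) = 1 := t.mul_inv
    unfold X
    rw [map_sub, map_add, map_smul, map_smul, π_of, π_of, map_one, LinearMap.sub_apply,
      LinearMap.add_apply, LinearMap.smul_apply, LinearMap.smul_apply, map_inv,
      ρ_σ t n 1 (by omega) (by omega), bur_val, bur_inv_val, Module.End.one_apply]
    rw [← algebraMap_smul A (q : R) (_ : ℕ → A), ← algebraMap_smul A (1 - (q : R)) (_ : ℕ → A)]
    funext l
    simp only [w, c, Pi.add_apply, Pi.sub_apply, Pi.smul_apply, smul_eq_mul, map_sub, map_one,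
      pow_one, zero_add, Finset.prod_range_one, Nat.reduceAdd, burL_apply, burI_apply]
    by_cases h1 : l = 1
    · subst h1
      simp only [e_self, e_ne 2 1 (by norm_num), if_true]
      linear_combination (algebraMap R A (q : R) * (v 1 - v 2)) * ht
    · by_cases h2 : l = 2
      · subst h2
        simp only [e_self, e_ne 1 2 (by norm_num), if_true, OfNat.ofNat_ne_one, if_false]
        ring
      · simp only [e_ne 1 l h1, e_ne 2 l h2, h1, h2, if_false]
        ring
  | succ k ih =>
    have hX : X R q n (k + 1 + 2) = E R q n (k + 2) * X R q n (k + 2) := rfl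
    rw [hX, map_mul, Module.End.mul_apply, ih (by omega), map_smul,
      π_E R q n t (k + 1) (by omega) (by omega), smul_smul, Finset.prod_range_succ _ (k + 1)]
    congr 1
    ring

/-- The Burau representation satisfies the defining relations of `Z_n`. -/
lemma π_rel (x y : GrpAlg R n) (h : ZRel R q n x y) : π R n t x = π R n t y := by
  rcases h with ⟨k, h2, hk⟩
  obtain ⟨k, rfl⟩ : ∃ m, k = m + 2 := ⟨k - 2, by omega⟩
  refine LinearMap.ext fun v => ?_
  rw [map_mul, map_mul, Module.End.mul_apply, Module.End.mul_apply,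
    π_X R q n t k (by omega) v, map_smul, map_smul, π_F R q n t (k + 1) (by omega) (by omega)]
  congr 1
  rcases Nat.eq_zero_or_pos k with h0 | h0
  · subst h0
    exact π_G_two R q n t (by omega)
  · exact π_G R q n t (k + 1) (by omega) (by omega)

end Rep

section Main

variable (R : Type) [CommRing R] (q : Rˣ)

/-- The Laurent variable as a unit. -/
noncomputable def tvar : (LaurentPolynomial R)ˣ where
  val := T 1
  inv := T (-1)
  val_inv := by rw [← T_add]; simp
  inv_val := by rw [← T_add]; simp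

lemma prod_c_ne_zero [Nontrivial R] (m : ℕ) :
    (∏ j ∈ Finset.range m, c R q (tvar R) (j + 1)) ≠ 0 := by
  intro h
  have h1 : ∏ j ∈ Finset.range m, (-(T 1 : LaurentPolynomial R) * c R q (tvar R) (j + 1)) = 0 := by
    rw [Finset.prod_mul_distrib, h, mul_zero]
  have h2 : ∀ j : ℕ, (-(T 1 : LaurentPolynomial R) * c R q (tvar R) (j + 1)) =
      Polynomial.toLaurent (Polynomial.X - Polynomial.C ((q : R) ^ (j + 1))) := by
    intro j
    have ht : (T 1 : LaurentPolynomial R) * (((tvar R)⁻¹ : (LaurentPolynomial R)ˣ) :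
        LaurentPolynomial R) = 1 := (tvar R).mul_inv
    rw [map_sub, Polynomial.toLaurent_X, Polynomial.toLaurent_C]
    unfold c
    have h3 : algebraMap R (LaurentPolynomial R) ((q : R) ^ (j + 1)) = C ((q : R) ^ (j + 1)) := rfl
    rw [h3]
    linear_combination (-C ((q : R) ^ (j + 1))) * ht
  simp only [h2] at h1
  rw [← map_prod] at h1
  have h4 : (∏ j ∈ Finset.range m, (Polynomial.X - Polynomial.C ((q : R) ^ (j + 1)))) = 0 :=
    Polynomial.toLaurent_injective (by rw [h1, map_zero])
  exact (Polynomial.monic_prod_of_monic _ _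
    (fun j _ => Polynomial.monic_X_sub_C ((q : R) ^ (j + 1)))).ne_zero h4

/-- Over every nontrivial commutative ring, no `X_k` with `2 ≤ k ≤ n` vanishes in `Z_n`. -/
theorem X_ne_zero [Nontrivial R] (n k : ℕ) (h2 : 2 ≤ k) (hk : k ≤ n) :
    toZ R q n (X R q n k) ≠ 0 := by
  obtain ⟨k, rfl⟩ : ∃ m, k = m + 2 := ⟨k - 2, by omega⟩
  intro h
  let f : Z R q n →+* Module.End (LaurentPolynomial R) (ℕ → LaurentPolynomial R) :=
    RingQuot.lift ⟨((π R n (tvar R)) : GrpAlg R n →+* _), fun x y hxy =>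
      π_rel R q n (tvar R) x y hxy⟩
  have hf : f (toZ R q n (X R q n (k + 2))) = π R n (tvar R) (X R q n (k + 2)) := by
    exact RingQuot.lift_mkRingHom_apply _ _ _
  rw [h, map_zero] at hf
  have h3 := π_X R q n (tvar R) k hk (e (LaurentPolynomial R) 1)
  rw [← hf] at h3
  have h4 := congrFun h3 (k + 2)
  simp only [LinearMap.zero_apply, Pi.zero_apply, Pi.smul_apply, smul_eq_mul, w, Pi.sub_apply,
    e_self, e_ne 1 2 (by norm_num : (2 : ℕ) ≠ 1), e_ne (k + 1) (k + 2) (by omega), sub_zero,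
    mul_one, mul_zero] at h4
  exact prod_c_ne_zero R q (k + 1) h4.symm

end Main

/-- The indeterminate `q`, as a unit of `ℤ[q, q⁻¹]`. -/
noncomputable def qvar : (LaurentPolynomial ℤ)ˣ where
  val := T 1
  inv := T (-1)
  val_inv := by rw [← T_add]; simp
  inv_val := by rw [← T_add]; simp

/-- **Answer to Q1**: over `ℤ[q, q⁻¹]` the set of `n ≥ 3` such that `X_3 = 0` in `Z_n` is empty.
Moreover, over every nontrivial commutative ring `R` and for every unit `q` of `R`, none of the
elements `X_k`, `2 ≤ k ≤ n`, vanishes in `Z_n`. -/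
theorem result :
    {n : ℕ | 3 ≤ n ∧ toZ (LaurentPolynomial ℤ) qvar n (X (LaurentPolynomial ℤ) qvar n 3) = 0} = ∅ ∧
    ∀ (R : Type) [CommRing R] [Nontrivial R] (q : Rˣ) (n k : ℕ), 2 ≤ k → k ≤ n →
      toZ R q n (X R q n k) ≠ 0 := by
  constructor
  · ext n
    simp only [Set.mem_ofPred_eq, Set.mem_empty_iff_false, iff_false, not_and]
    intro h
    exact X_ne_zero _ _ n 3 (by norm_num) h
  · intro R _ _ q n k h2 hk
    exact X_ne_zero R q n k h2 hk

end Pool.Agent.Results.MP_2b4a1d_al.NeverVanishes
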